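import Mathlib
import Pool.Agent.H32.IndF
import Pool.Agent.H32.Clo

open Set Filter Topology
open Cardinal hiding univ

namespace Pool.Agent.Results.MP_6ca30a_an.NoUniversal

open Pool.Agent.H32

variable (X : Type) [AddCommGroup X] [TopologicalSpace X]

def CauchyOver (F : Filter ℕ) (x : ℕ → X) : Prop :=
  ∀ U ∈ 𝓝 (0 : X), ∃ B ∈ F, ∀ m ∈ B, ∀ n ∈ B, x m - x n ∈ U

def ConvOver (F : Filter ℕ) (x : ℕ → X) (y : X) : Prop := ∀ V ∈ 𝓝 y, ∃ A ∈ F, ∀ n ∈ A, x n ∈ V

def Compl (F : Filter ℕ) : Prop := ∀ x, CauchyOver X F x → ∃ y, ConvOver X F x y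

def Free (F : Filter ℕ) : Prop := F ≠ ⊥ ∧ F ≤ cofinite

def CountablyComplete : Prop := ∀ F, Free F → Compl X F

variable {X}

lemma conv_iff {F : Filter ℕ} {x : ℕ → X} {y : X} : ConvOver X F x y ↔ Tendsto x F (𝓝 y) :=
  ⟨fun h V hV => let ⟨_, a, b⟩ := h V hV; mem_map.2 (mem_of_superset a b), fun h V hV => ⟨_, h hV, fun _ => id⟩⟩

lemma cauchy_iff {F : Filter ℕ} {x : ℕ → X} :
    CauchyOver X F x ↔ Tendsto (fun p : ℕ × ℕ => x p.1 - x p.2) (F ×ˢ F) (𝓝 0) := by
  refine forall₂_congr fun U _ => ?_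
  rw [mem_map, mem_prod_same_iff]
  exact ⟨fun ⟨B, a, b⟩ => ⟨B, a, fun p ⟨c, d⟩ => b _ c _ d⟩,
    fun ⟨B, a, b⟩ => ⟨B, a, fun m c n d => @b (m, n) ⟨c, d⟩⟩⟩

theorem result (𝕜 : Type) [RCLike 𝕜] (U : Ultrafilter ℕ) (_ : Free U) :
    ∃ (X : Type) (_ : AddCommGroup X) (_ : Module 𝕜 X) (_ : TopologicalSpace X),
      IsTopologicalAddGroup X ∧ ContinuousSMul 𝕜 X ∧ T2Space X ∧
      Compl X U ∧ ¬ CountablyComplete X := by
  classical
  obtain ⟨C, c1, c2⟩ := IndF.exists_family
  have hk : #𝕜 ≤ 𝔠 := by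
    have : Function.Injective fun z : 𝕜 => (RCLike.re z, RCLike.im z) := fun a b h =>
      RCLike.ext (congrArg Prod.fst h) (congrArg Prod.snd h)
    simpa [mk_real] using mk_le_of_injective this
  let φ : Bool → 𝕜 := fun b => if b then 1 else 0
  let e : ℕ → IndF.T → 𝕜 := fun n t => φ (n ∈ C (t, true))
  obtain ⟨Z, z1, z2, z3⟩ := Clo.clo (I := Option 𝕜) (by
    rw [mk_option]
    exact add_le_of_le aleph0_le_continuum hk (one_le_aleph0.trans aleph0_le_continuum)) e
    fun o x => o.elim (limUnder U x) fun c => c • x 0 + x 1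
  have z4 : ∀ c : 𝕜, ∀ a ∈ Z, ∀ b ∈ Z, c • a + b ∈ Z := fun c a ha b hb =>
    z3 (some c) (fun n => if n = 0 then a else b) fun n => by split_ifs <;> assumption
  have z0 : 0 ∈ Z := by simpa using z4 (-1) _ (z2 0) _ (z2 0)
  let S : Submodule 𝕜 (IndF.T → 𝕜) :=
    { carrier := Z
      add_mem' := fun ha hb => by simpa using z4 1 _ ha _ hb
      zero_mem' := z0
      smul_mem' := fun c a ha => by simpa using z4 c _ ha _ z0 }
  refine ⟨S, inferInstance, inferInstance, inferInstance, inferInstance, inferInstance,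
    inferInstance, fun x hx => ?_, fun h => ?_⟩
  · have h1 : Cauchy (map (fun n => (x n).1) U) := by
      rw [cauchy_map_iff, uniformity_eq_comap_nhds_zero, tendsto_comap_iff]
      refine ⟨inferInstance, ?_⟩
      exact ((continuous_subtype_val.tendsto _).comp (cauchy_iff.1 hx)).comp tendsto_prod_swap
    have h2 := tendsto_nhds_limUnder (CompleteSpace.complete h1)
    exact ⟨⟨_, z3 none _ fun n => (x n).2⟩, conv_iff.2 (tendsto_subtype_rng.2 h2)⟩
  · have key : ∀ g : IndF.T → Bool, φ ∘ g ∈ Z := fun g => by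
      let F : Filter ℕ := cofinite ⊓ ⨅ t, 𝓟 (C (t, g t))
      have f1 : F ≠ ⊥ := fun k => by
        obtain ⟨A, a1, B, b1, k⟩ := mem_inf_iff.1 (empty_mem_iff_bot.2 k)
        obtain ⟨I, i2⟩ := (mem_iInf_finite B).1 b1
        have := c2 (I.image fun t => (t, g t)) fun t h1 h2 => by
          simp only [Finset.mem_image, Prod.mk.injEq] at h1 h2
          obtain ⟨_, -, rfl, h1⟩ := h1
          obtain ⟨_, -, rfl, h2⟩ := h2
          simp [h1] at h2
        obtain ⟨n, n1, n2⟩ := (this.and_eventually a1).exists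
        refine (k ▸ ⟨n2, ?_⟩ : n ∈ (∅ : Set ℕ))
        simp only [iInf_principal_finset, mem_principal] at i2
        exact i2 (mem_iInter₂.2 fun t ht => n1 _ (Finset.mem_image_of_mem _ ht))
      have f2 : Tendsto e F (𝓝 (φ ∘ g)) := tendsto_pi_nhds.2 fun t =>
        tendsto_const_nhds.congr' (mem_inf_of_right (mem_iInf_of_mem t fun n hn => by
          cases k : g t <;> simp_all [e]))
      have : F.NeBot := ⟨f1⟩
      obtain ⟨y, hy⟩ := h F ⟨f1, inf_le_left⟩ (fun n => ⟨e n, z2 n⟩) (cauchy_iff.2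
        (tendsto_subtype_rng.2 (by
          simpa using (f2.comp tendsto_fst).sub (f2.comp tendsto_snd))))
      exact tendsto_nhds_unique (tendsto_subtype_rng.1 (conv_iff.1 hy)) f2 ▸ y.2
    have : #(IndF.T → Bool) ≤ #Z := mk_le_of_injective (f := fun g => ⟨_, key g⟩) fun a b k =>
      funext fun t => by
        have := congrFun (congrArg Subtype.val k) t
        cases ha : a t <;> cases hb : b t <;> simp_all [φ]
    simp only [IndF.T, mk_pi, prod_const, lift_id, mk_fintype, Fintype.card_bool, Nat.cast_ofNat,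
      mk_nat, two_power_aleph0] at this
    exact absurd (this.trans z1) (not_le.2 (cantor _))

end Pool.Agent.Results.MP_6ca30a_an.NoUniversal
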